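import Pool.Agent.W424.SC.Fin

/-!
The conditional expectation of the length of the shortest crossing, given a crossing.
-/

set_option autoImplicit false

namespace Pool.Agent.W424.SC

open H974 H12S Finset H389NS H984P H984N H342P
open Pool.Agent.W424.OD Pool.Agent.W424.FR

/-- Some open path of the box joins its left side to its right side. -/
def Crosses (n : ℕ) (F : Finset Plain.Edge) : Prop :=
  ∃ y y' : ℤ, (0 ≤ y ∧ y ≤ n) ∧ (0 ≤ y' ∧ y' ≤ n) ∧
    (Plain.openGraph F).Reachable (0, y) ((n : ℤ), y')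

open Classical in
/-- Conditional expectation given a crossing. -/
noncomputable def expectCross (n : ℕ) (X : Finset Plain.Edge → ℝ) : ℝ :=
  (∑ F ∈ (Plain.edges n).powerset.filter (Crosses n), X F) /
    (((Plain.edges n).powerset.filter (Crosses n)).card : ℝ)

theorem LRE_sub (n : ℕ) : LRE 0 n 0 n ⊆ RE 0 n 0 n := by
  rintro ⟨x, y, t⟩ h
  cases t
  · rw [mem_LRE_false] at h
    rw [mem_RE_false]
    omega
  · rw [mem_LRE_true] at h
    rw [mem_RE_true]
    omega

theorem half_le {n : ℕ} (hn : 1 ≤ n) : (1/2:ℝ) ≤ Plain.prob n (Crosses n) := by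
  have hok : Ok (fun _ : Edg => (1/2:ℝ)) := fun _ => ⟨by norm_num, by norm_num⟩
  rw [Plain.prob_eq]
  have h1 : hh (1/2) ((n:ℤ) + 1) n = 1/2 := by
    have h := hh_dual (q := 1/2) (w := (n:ℤ) + 1) (h := n) (by omega) (by omega)
    have e1 : (1:ℝ) - 1/2 = 1/2 := by norm_num
    rw [e1, show ((n:ℤ) + 1 - 1) = n by ring] at h
    linarith
  have h2 := hh_mono (q := 1/2) (by norm_num) (by norm_num) (w := (n:ℤ) + 1) (w' := n) (h := n)
    (h' := n) (by omega) (by omega) (le_refl _)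
  have h3 : Pr (fun _ => (1/2:ℝ)) (RE 0 n 0 n) (LRc 0 n 0 n) = hh (1/2) n n :=
    pr_LRc0 (1/2) (LRE_sub n)
  have h4 : Pr (fun _ => (1/2:ℝ)) (RE 0 n 0 n) (LRc 0 n 0 n) ≤
      Pr (fun _ => (1/2:ℝ)) (RE 0 n 0 n) (Crosses n) := by
    apply Pr_mono hok
    rintro F _ ⟨y, y', hy, hy', hR⟩
    refine ⟨y, y', hy, hy', ?_⟩
    exact (Plain.mem_cluster F (0, y) ((n:ℤ), y')).2
      (Reach.mono (show (↑F : Set Edg) ∩ ↑(LRE 0 n 0 n) ⊆ ↑F from Set.inter_subset_left) hR)
  linarith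

theorem main2 : ∃ K : ℝ, 0 < K ∧ ∀ n : ℕ, 1 ≤ n →
    expectCross n (fun F => (shortest n F : ℝ)) ≤ K * (n:ℝ) ^ (4/3 : ℝ) := by
  classical
  obtain ⟨K, hK, h⟩ := main
  refine ⟨2 * K, by positivity, ?_⟩
  intro n hn
  have h1 := h n hn
  have h2 := half_le hn
  unfold expect at h1
  unfold Plain.prob at h2
  unfold expectCross
  have hp : (0:ℝ) < 2 ^ (Plain.edges n).card := by positivity
  rw [le_div_iff₀ hp] at h2
  rw [div_le_iff₀ hp] at h1
  have hc : (0:ℝ) < (((Plain.edges n).powerset.filter (Crosses n)).card : ℝ) := by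
    refine lt_of_lt_of_le ?_ h2
    positivity
  rw [div_le_iff₀ hc]
  have h3 : ∑ F ∈ (Plain.edges n).powerset.filter (Crosses n), (shortest n F : ℝ) ≤
      ∑ F ∈ (Plain.edges n).powerset, (shortest n F : ℝ) := by
    apply Finset.sum_le_sum_of_subset_of_nonneg (Finset.filter_subset _ _)
    intro F _ _
    exact Nat.cast_nonneg _
  have h4 : 0 ≤ K * (n:ℝ) ^ (4/3 : ℝ) := by positivity
  nlinarith [mul_le_mul_of_nonneg_left h2 h4]

end Pool.Agent.W424.SC
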