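import Pool.Agent.W424.FR.T_AD
import Pool.Agent.W424.OD.Cnt
import Pool.Agent.H974R2.StabC

/-!
Shortest crossing: a minimal crossing made of edges next to the closed region of the bottom.
-/

set_option autoImplicit false

namespace Pool.Agent.W424.SC

open H974 H12S Finset H389NS H984P H984N H342P
open Pool.Agent.W424.OD Pool.Agent.W424.FR

/-- passing through one edge -/
theorem through {G : Set Edg} {e : Edg} {f g : Vtx} (h : DReach (insert e G) f g) :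
    DReach G f g ∨ ((DReach G f (dsrc e) ∨ DReach G f (dtgt e)) ∧
      (DReach G (dsrc e) g ∨ DReach G (dtgt e) g)) := by
  induction h with
  | refl => exact Or.inl (DReach.refl _ _)
  | tail h1 h2 ih =>
    rename_i b c
    obtain ⟨e', he', h3⟩ := h2
    rcases Set.mem_insert_iff.1 he' with h4 | h4
    · subst h4
      have hc : DReach G (dsrc e') c ∨ DReach G (dtgt e') c := by
        rcases h3 with ⟨-, h5⟩ | ⟨h5, -⟩
        · exact Or.inr (h5 ▸ DReach.refl _ _)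
        · exact Or.inl (h5 ▸ DReach.refl _ _)
      have hb : b = dsrc e' ∨ b = dtgt e' := by
        rcases h3 with ⟨h5, -⟩ | ⟨-, h5⟩
        · exact Or.inl h5.symm
        · exact Or.inr h5.symm
      rcases ih with ih | ih
      · refine Or.inr ⟨?_, hc⟩
        rcases hb with hb | hb
        · exact Or.inl (hb ▸ ih)
        · exact Or.inr (hb ▸ ih)
      · exact Or.inr ⟨ih.1, hc⟩
    · have hs : DReach G b c := DAdj.reach ⟨e', h4, h3⟩
      rcases ih with ih | ⟨ih1, ih2 | ih2⟩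
      · exact Or.inl (DReach.trans ih hs)
      · exact Or.inr ⟨ih1, Or.inl (DReach.trans ih2 hs)⟩
      · exact Or.inr ⟨ih1, Or.inr (DReach.trans ih2 hs)⟩

theorem corridor {A : Set Edg} {Bad : Vtx → Prop} {b t : Vtx} (h : Reach A b t)
    (hb : ∀ v, Reach A v t → ¬ Bad v) : Reach {e | ¬ Bad (src e) ∧ ¬ Bad (tgt e)} b t := by
  induction h using Relation.ReflTransGen.head_induction_on with
  | refl => exact Reach.refl _ _
  | head h1 h2 ih =>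
    rename_i x y
    have hx : ¬ Bad x := hb x (Relation.ReflTransGen.head h1 h2)
    have hy : ¬ Bad y := hb y h2
    obtain ⟨e, he, h3⟩ := h1
    refine Relation.ReflTransGen.head ⟨e, ?_, h3⟩ ih
    rcases h3 with ⟨h4, h5⟩ | ⟨h4, h5⟩
    · exact ⟨by rw [h4]; exact hx, by rw [h5]; exact hy⟩
    · exact ⟨by rw [h4]; exact hy, by rw [h5]; exact hx⟩

/-- connected to the bottom -/
def Bt (n : ℕ) (G : Set Edg) (f : Vtx) : Prop :=
  ∃ x : ℤ, (0 ≤ x ∧ x < n) ∧ DReach (Gᶜ ∩ ↑(LRE 0 n 0 n)) (x, 0 - 1) f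

/-- connected to the top -/
def Tp (n : ℕ) (G : Set Edg) (f : Vtx) : Prop :=
  ∃ x : ℤ, (0 ≤ x ∧ x < n) ∧ DReach (Gᶜ ∩ ↑(LRE 0 n 0 n)) f (x, (n : ℤ))

theorem disj {n : ℕ} {F : Finset Edg} (h : LRc 0 n 0 n F) {f : Vtx} (h1 : Bt n ↑F f)
    (h2 : Tp n ↑F f) : False := by
  obtain ⟨y, y', hy, hy', hr⟩ := h
  obtain ⟨x, hx, hd⟩ := h1
  obtain ⟨x', hx', hd'⟩ := h2
  exact no_both (by omega) hy' hx hr (DReach.trans hd hd')

theorem Bt.mono {n : ℕ} {G H : Set Edg} (hGH : G ⊆ H) {f : Vtx} (h : Bt n H f) : Bt n G f := by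
  obtain ⟨x, hx, hd⟩ := h
  exact ⟨x, hx, hd.mono (Set.inter_subset_inter_left _ (Set.compl_subset_compl.2 hGH))⟩

theorem cut {n : ℕ} {F : Finset Edg} (h : LRc 0 n 0 n F) :
    ∃ Γ : Finset Edg, Γ ⊆ F ∧ Γ ⊆ LRE 0 n 0 n ∧ LRc 0 n 0 n Γ ∧
    ∀ e ∈ Γ, ∃ (a b : Vtx) (x x' : ℤ), (a = dsrc e ∨ a = dtgt e) ∧ (b = dsrc e ∨ b = dtgt e) ∧
      Reach (dl '' ((↑F : Set Edg)ᶜ ∩ ↑(LRE 0 n 0 n))) a (x, 0 - 1) ∧
      Reach {g | ¬ Reach (dl '' ((↑F : Set Edg)ᶜ ∩ ↑(LRE 0 n 0 n))) a (src g) ∧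
        ¬ Reach (dl '' ((↑F : Set Edg)ᶜ ∩ ↑(LRE 0 n 0 n))) a (tgt g)} b (x', (n : ℤ)) := by
  classical
  set F' : Finset Edg := F.filter (fun e => e ∈ LRE 0 n 0 n ∧
    (Bt n ↑F (dsrc e) ∨ Bt n ↑F (dtgt e))) with hF'
  have hF'F : F' ⊆ F := Finset.filter_subset _ _
  have hLF' : LRc 0 n 0 n F' := by
    by_contra hcon
    obtain ⟨x, x', hx, hx', hd⟩ := closed_dual (by omega) (by omega) hcon
    have key : ∀ g, DReach ((↑F' : Set Edg)ᶜ ∩ ↑(LRE 0 n 0 n)) (x, 0 - 1) g → Bt n ↑F g := by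
      intro g hg
      induction hg with
      | refl => exact ⟨x, hx, DReach.refl _ _⟩
      | tail h1 h2 ih =>
        rename_i b c
        obtain ⟨e, ⟨he1, he2⟩, h3⟩ := h2
        obtain ⟨x0, hx0, h4⟩ := ih
        refine ⟨x0, hx0, DReach.trans h4 (DAdj.reach ⟨e, ⟨?_, he2⟩, h3⟩)⟩
        intro heF
        apply he1
        rw [Finset.mem_coe, hF', Finset.mem_filter]
        refine ⟨heF, he2, ?_⟩
        rcases h3 with ⟨h5, -⟩ | ⟨-, h5⟩
        · exact Or.inl (by rw [h5]; exact ⟨x0, hx0, h4⟩)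
        · exact Or.inr (by rw [h5]; exact ⟨x0, hx0, h4⟩)
    exact disj h (key _ hd) ⟨x', hx', DReach.refl _ _⟩
  obtain ⟨Γ, hΓ, hmin⟩ := Finset.exists_min_image
    (F'.powerset.filter (fun Γ => LRc 0 n 0 n Γ)) Finset.card
    ⟨F', by rw [Finset.mem_filter, Finset.mem_powerset]; exact ⟨Finset.Subset.refl _, hLF'⟩⟩
  rw [Finset.mem_filter, Finset.mem_powerset] at hΓ
  obtain ⟨hΓF', hΓL⟩ := hΓ
  refine ⟨Γ, hΓF'.trans hF'F, ?_, hΓL, ?_⟩
  · intro e he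
    have := hΓF' he
    rw [hF', Finset.mem_filter] at this
    exact this.2.1
  intro e he
  have hne : ¬ LRc 0 n 0 n (Γ.erase e) := by
    intro hcon
    have h1 := hmin (Γ.erase e) (by
      rw [Finset.mem_filter, Finset.mem_powerset]
      exact ⟨(Finset.erase_subset _ _).trans hΓF', hcon⟩)
    have h2 := Finset.card_erase_lt_of_mem he
    omega
  obtain ⟨x, x', hx, hx', hd⟩ := closed_dual (by omega) (by omega) hne
  have hd2 : DReach (insert e ((↑Γ : Set Edg)ᶜ ∩ ↑(LRE 0 n 0 n))) (x, 0 - 1) (x', (n:ℤ)) := by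
    refine hd.mono ?_
    rintro g ⟨hg1, hg2⟩
    by_cases hge : g = e
    · exact Or.inl hge
    · refine Or.inr ⟨?_, hg2⟩
      intro hgΓ
      exact hg1 (by rw [Finset.mem_coe, Finset.mem_erase]; exact ⟨hge, hgΓ⟩)
  have heF' := hΓF' he
  rw [hF', Finset.mem_filter] at heF'
  obtain ⟨a, ha1, ha2⟩ : ∃ a, (a = dsrc e ∨ a = dtgt e) ∧ Bt n ↑F a := by
    rcases heF'.2.2 with h1 | h1
    · exact ⟨_, Or.inl rfl, h1⟩
    · exact ⟨_, Or.inr rfl, h1⟩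
  obtain ⟨b, hb1, hb2⟩ : ∃ b, (b = dsrc e ∨ b = dtgt e) ∧
      DReach ((↑Γ : Set Edg)ᶜ ∩ ↑(LRE 0 n 0 n)) b (x', (n:ℤ)) := by
    rcases through hd2 with h1 | ⟨-, h1 | h1⟩
    · exact (disj hΓL ⟨x, hx, h1⟩ ⟨x', hx', DReach.refl _ _⟩).elim
    · exact ⟨_, Or.inl rfl, h1⟩
    · exact ⟨_, Or.inr rfl, h1⟩
  obtain ⟨x0, hx0, hd0⟩ := ha2
  have hsub : (↑Γ : Set Edg) ⊆ ↑F := by exact_mod_cast hΓF'.trans hF'F
  refine ⟨a, b, x0, x', ha1, hb1, reach_dl.2 hd0.symm, ?_⟩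
  refine corridor (A := dl '' ((↑Γ : Set Edg)ᶜ ∩ ↑(LRE 0 n 0 n))) (reach_dl.2 hb2) ?_
  intro v hv hav
  rw [reach_dl] at hv hav
  have h1 : Bt n ↑F v := ⟨x0, hx0, DReach.trans hd0 hav⟩
  exact disj hΓL (h1.mono hsub) ⟨x', hx', hv⟩

/-- three closed, open, open arms near `v` up to the distance `k` -/
def Ek (n : ℕ) (v : Vtx) (F : Finset Edg) : Prop :=
  ∀ k : ℕ, 2 ≤ k → (k:ℤ) + 3 ≤ bdist n v → A3d v 2 k ↑F

theorem arms {n : ℕ} {F : Finset Edg} {e : Edg} {a b : Vtx} {x x' : ℤ}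
    (ha : a = dsrc e ∨ a = dtgt e) (hb : b = dsrc e ∨ b = dtgt e)
    (h1 : Reach (dl '' ((↑F : Set Edg)ᶜ ∩ ↑(LRE 0 n 0 n))) a (x, 0 - 1))
    (h2 : Reach {g | ¬ Reach (dl '' ((↑F : Set Edg)ᶜ ∩ ↑(LRE 0 n 0 n))) a (src g) ∧
        ¬ Reach (dl '' ((↑F : Set Edg)ᶜ ∩ ↑(LRE 0 n 0 n))) a (tgt g)} b (x', (n : ℤ))) :
    Ek n (e.1, e.2.1) F := by
  intro k hk hkb
  unfold bdist at hkb
  simp only at hkb
  have hkb' : (k:ℤ) + 3 ≤ e.1 ∧ (k:ℤ) + 3 ≤ n - e.1 ∧ (k:ℤ) + 3 ≤ e.2.1 ∧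
      (k:ℤ) + 3 ≤ n - e.2.1 := by omega
  have hnear : ∀ c : Vtx, (c = dsrc e ∨ c = dtgt e) → BX (e.1, e.2.1) 2 c := by
    intro c hc
    obtain ⟨p, q, t⟩ := e
    unfold BX inR
    cases t
    · rcases hc with rfl | rfl <;> simp <;> omega
    · rcases hc with rfl | rfl <;> simp <;> omega
  unfold A3d
  have hA : A3v (e.1, e.2.1) 2 k (dl '' ((↑F : Set Edg)ᶜ ∩ ↑(LRE 0 n 0 n))) := by
    refine A3v_of hk (hnear a ha) (Reach.refl _ _) (x' := (x, 0 - 1)) ?_ h1 (hnear b hb)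
      (w' := (x', (n:ℤ))) ?_ h2
    · unfold BX inR
      simp only
      omega
    · unfold BX inR
      simp only
      omega
  refine (A3v_congr ?_).1 hA
  ext g
  constructor
  · rintro ⟨⟨g', hg', rfl⟩, hg⟩
    exact ⟨⟨g', hg'.1, rfl⟩, hg⟩
  · rintro ⟨⟨g', hg', rfl⟩, hg⟩
    refine ⟨⟨g', ⟨hg', ?_⟩, rfl⟩, hg⟩
    have h3 := Pool.Agent.W571.DPad.dls_mem hg
    rw [Equiv.symm_apply_apply] at h3
    obtain ⟨p, q, t⟩ := g'
    unfold blk at h3
    cases t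
    · rw [mem_RE_false] at h3
      rw [Finset.mem_coe, mem_LRE_false]
      push_cast at h3
      omega
    · rw [mem_RE_true] at h3
      rw [Finset.mem_coe, mem_LRE_true]
      push_cast at h3
      omega

theorem card_le {n : ℕ} {F Γ : Finset Edg} (h1 : Γ ⊆ LRE 0 n 0 n)
    (h2 : ∀ e ∈ Γ, Ek n (e.1, e.2.1) F) :
    (Γ.card : ℝ) ≤ ∑ v ∈ Finset.Icc (0:ℤ) n ×ˢ Finset.Icc (0:ℤ) n, 2 * ind (Ek n v F) := by
  classical
  have h3 : Γ.card = ∑ v ∈ Finset.Icc (0:ℤ) n ×ˢ Finset.Icc (0:ℤ) n,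
      (Γ.filter (fun e => (e.1, e.2.1) = v)).card := by
    apply Finset.card_eq_sum_card_fiberwise
    intro e he
    have h4 := h1 he
    obtain ⟨p, q, t⟩ := e
    rw [Finset.mem_coe, Finset.mem_product, Finset.mem_Icc, Finset.mem_Icc]
    cases t
    · rw [mem_LRE_false] at h4
      simp only
      omega
    · rw [mem_LRE_true] at h4
      simp only
      omega
  rw [h3]
  push_cast
  apply Finset.sum_le_sum
  intro v _
  by_cases hE : Ek n v F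
  · rw [ind_of hE]
    have h4 : (Γ.filter (fun e => (e.1, e.2.1) = v)) ⊆ {(v.1, v.2, true), (v.1, v.2, false)} := by
      intro e he
      rw [Finset.mem_filter] at he
      obtain ⟨p, q, t⟩ := e
      have h5 := he.2
      simp only at h5
      rw [← h5]
      cases t <;> simp
    have h5 := (Finset.card_le_card h4).trans Finset.card_le_two
    have h6 : ((Γ.filter (fun e => (e.1, e.2.1) = v)).card : ℝ) ≤ 2 := by exact_mod_cast h5
    linarith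
  · rw [ind_not_of hE]
    have h4 : Γ.filter (fun e => (e.1, e.2.1) = v) = ∅ := by
      rw [Finset.filter_eq_empty_iff]
      intro e he h5
      exact hE (h5 ▸ h2 e he)
    rw [h4]
    simp

end Pool.Agent.W424.SC
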