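import Pool.Agent.W424.SC.Cut
import Pool.Agent.W424.KI.Fin

/-!
The expected length of the shortest crossing is at most `K n ^ (4/3)`.
-/

set_option autoImplicit false

namespace Pool.Agent.W424.SC

open H974 H12S Finset H389NS H984P H984N H342P
open Pool.Agent.W424.OD Pool.Agent.W424.FR

/-- Expectation for critical bond percolation in the box. -/
noncomputable def expect (n : ℕ) (X : Finset Plain.Edge → ℝ) : ℝ :=
  (∑ F ∈ (Plain.edges n).powerset, X F) / 2 ^ (Plain.edges n).card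

/-- The length of the shortest open left-right crossing of the box (`0` if there is none). -/
noncomputable def shortest (n : ℕ) (F : Finset Plain.Edge) : ℕ :=
  sInf {m | ∃ y y' : ℤ, (0 ≤ y ∧ y ≤ n) ∧ (0 ≤ y' ∧ y' ≤ n) ∧
    ∃ p : (Plain.openGraph F).Walk (0, y) ((n : ℤ), y'), p.length = m}

theorem expect_eq (n : ℕ) (X : Finset Plain.Edge → ℝ) :
    expect n X = Ex (fun _ => (1/2:ℝ)) (RE 0 n 0 n) X := by
  unfold expect Ex
  rw [Plain.edges_eq]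
  set S := RE (0:ℤ) n 0 n
  have h1 : ∀ F ∈ S.powerset, (∏ _e ∈ F, (1/2:ℝ)) * (∏ _e ∈ S \ F, (1 - (1/2:ℝ))) *
      X F = (1/2:ℝ) ^ S.card * X F := by
    intro F hF
    rw [Finset.mem_powerset] at hF
    rw [Finset.prod_const, Finset.prod_const]
    have h2 : (1:ℝ) - 1/2 = 1/2 := by norm_num
    rw [h2, ← pow_add, Finset.card_sdiff_of_subset hF]
    have h3 := Finset.card_le_card hF
    congr 2
    omega
  rw [Finset.sum_congr rfl h1, ← Finset.mul_sum, one_div, inv_pow]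
  ring

theorem path_card {Γ : Finset Plain.Edge} {u v : ℤ × ℤ}
    (h : (Plain.openGraph Γ).Reachable u v) :
    ∃ p : (Plain.openGraph Γ).Walk u v, p.length ≤ Γ.card := by
  classical
  obtain ⟨p0⟩ := h
  have hp := p0.toPath.2
  refine ⟨p0.toPath.1, ?_⟩
  set q := p0.toPath.1
  have h1 : q.edges.Nodup := hp.isTrail.edges_nodup
  have h2 : q.edges.toFinset ⊆ Γ.image (fun e => s(Plain.fst e, Plain.snd e)) := by
    intro s hs
    rw [List.mem_toFinset] at hs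
    have h3 := q.edges_subset_edgeSet hs
    induction s using Sym2.ind with
    | _ a b =>
      rw [SimpleGraph.mem_edgeSet] at h3
      unfold Plain.openGraph at h3
      rw [SimpleGraph.fromRel_adj] at h3
      rw [Finset.mem_image]
      rcases h3.2 with ⟨e, he, h4, h5⟩ | ⟨e, he, h4, h5⟩
      · exact ⟨e, he, by rw [h4, h5]⟩
      · exact ⟨e, he, by rw [h4, h5, Sym2.eq_swap]⟩
  calc q.length = q.edges.length := (q.length_edges).symm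
    _ = q.edges.toFinset.card := (List.toFinset_card_of_nodup h1).symm
    _ ≤ (Γ.image (fun e => s(Plain.fst e, Plain.snd e))).card := Finset.card_le_card h2
    _ ≤ Γ.card := Finset.card_image_le

theorem openGraph_mono {F G : Finset Plain.Edge} (h : F ⊆ G) :
    Plain.openGraph F ≤ Plain.openGraph G := by
  intro a b hab
  unfold Plain.openGraph at hab ⊢
  rw [SimpleGraph.fromRel_adj] at hab ⊢
  refine ⟨hab.1, ?_⟩
  rcases hab.2 with ⟨e, he, h2⟩ | ⟨e, he, h2⟩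
  · exact Or.inl ⟨e, h he, h2⟩
  · exact Or.inr ⟨e, h he, h2⟩

theorem shortest_le {n : ℕ} (hn : 1 ≤ n) {F : Finset Edg} (hF : F ⊆ RE 0 n 0 n) :
    (shortest n F : ℝ) ≤ ∑ v ∈ Finset.Icc (0:ℤ) n ×ˢ Finset.Icc (0:ℤ) n, 2 * ind (Ek n v F) := by
  classical
  have hnn : 0 ≤ ∑ v ∈ Finset.Icc (0:ℤ) n ×ˢ Finset.Icc (0:ℤ) n, 2 * ind (Ek n v F) :=
    Finset.sum_nonneg (fun v _ => mul_nonneg (by norm_num) (ind_nonneg _))
  unfold shortest
  rcases Set.eq_empty_or_nonempty {m | ∃ y y' : ℤ, (0 ≤ y ∧ y ≤ n) ∧ (0 ≤ y' ∧ y' ≤ n) ∧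
    ∃ p : (Plain.openGraph F).Walk (0, y) ((n : ℤ), y'), p.length = m} with h0 | ⟨m, hm⟩
  · rw [h0, Nat.sInf_empty]
    simpa using hnn
  obtain ⟨y, y', hy, hy', p, -⟩ := hm
  have hr : Reach (↑F : Set Edg) (0, y) ((n:ℤ), y') :=
    (Plain.mem_cluster F (0, y) ((n:ℤ), y')).1 ⟨p⟩
  obtain ⟨y1, y2, hy1, hy2, hL, -⟩ := sub_LR (G := (↑F : Set Edg)) (a := 0) (b := (n:ℤ)) (c := 0)
    (d := (n:ℤ)) (by omega) (by
      intro x y h _ _
      have := hF (Finset.mem_coe.1 h)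
      rw [mem_RE_true] at this
      omega) (by
      intro x y h _ _
      have := hF (Finset.mem_coe.1 h)
      rw [mem_RE_false] at this
      omega) hr (le_refl _) (le_refl _)
  obtain ⟨Γ, hΓF, hΓL, ⟨z, z', hz, hz', hR⟩, hΓ⟩ := cut (n := n) (F := F) ⟨y1, y2, hy1, hy2, hL⟩
  have h1 : (Γ.card : ℝ) ≤ ∑ v ∈ Finset.Icc (0:ℤ) n ×ˢ Finset.Icc (0:ℤ) n,
      2 * ind (Ek n v F) := by
    apply card_le hΓL
    intro e he
    obtain ⟨a, b, x, x', ha, hb, h3, h4⟩ := hΓ e he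
    exact arms ha hb h3 h4
  refine le_trans ?_ h1
  have h2 : (Plain.openGraph Γ).Reachable (0, z) ((n:ℤ), z') := by
    have := (Plain.mem_cluster Γ (0, z) ((n:ℤ), z')).2
      (Reach.mono (show (↑Γ : Set Edg) ∩ ↑(LRE 0 n 0 n) ⊆ ↑Γ from Set.inter_subset_left) hR)
    exact this
  obtain ⟨q, hq⟩ := path_card h2
  have h5 : sInf {m | ∃ y y' : ℤ, (0 ≤ y ∧ y ≤ n) ∧ (0 ≤ y' ∧ y' ≤ n) ∧
      ∃ p : (Plain.openGraph F).Walk (0, y) ((n : ℤ), y'), p.length = m} ≤ q.length := by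
    apply Nat.sInf_le
    refine ⟨z, z', hz, hz', q.mapLe (openGraph_mono hΓF), ?_⟩
    simp
  exact_mod_cast h5.trans hq

theorem prob_Ek {C0 : ℝ} (hC0 : 0 < C0) (h : ∀ (c : ℤ × ℤ) (d k : ℕ), 1 ≤ d → d ≤ k →
    ∀ S : Finset Edg, blk c (k + 1) ⊆ S →
      PQ (1/2) S (fun F => A3d c d k ↑F) ≤ C0 * ((d:ℝ) / k) ^ (2/3 : ℝ)) (n : ℕ) (v : Vtx) :
    Pr (fun _ => (1/2:ℝ)) (RE 0 n 0 n) (Ek n v) ≤ ph (5 * C0 + 4) (2/3) (bdist n v) := by
  have hok : Ok (fun _ : Edg => (1/2:ℝ)) := fun _ => ⟨by norm_num, by norm_num⟩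
  unfold ph
  split_ifs with h0
  · exact Pr_le_one hok _ _
  · obtain ⟨j, hj⟩ := Int.eq_ofNat_of_zero_le (show 0 ≤ bdist n v by omega)
    rw [hj] at h0 ⊢
    have hj1 : 1 ≤ j := by omega
    have hjR : (1:ℝ) ≤ j := by exact_mod_cast hj1
    have hj0 : (0:ℝ) < j := by linarith
    have hcast : (((j:ℤ) : ℤ) : ℝ) = (j:ℝ) := by push_cast; rfl
    rw [hcast]
    have hp0 : (0:ℝ) < (j:ℝ) ^ (-(2/3) : ℝ) := Real.rpow_pos_of_pos hj0 _
    by_cases h5 : j < 5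
    · have h1 : (1/4 : ℝ) ≤ (j:ℝ) ^ (-(2/3) : ℝ) := by
        have h2 : (j:ℝ) ≤ 4 := by exact_mod_cast (by omega : j ≤ 4)
        have h3 : (4:ℝ) ^ (-1 : ℝ) ≤ (j:ℝ) ^ (-1 : ℝ) :=
          Real.rpow_le_rpow_of_nonpos hj0 h2 (by norm_num)
        have h4 : (j:ℝ) ^ (-1 : ℝ) ≤ (j:ℝ) ^ (-(2/3) : ℝ) :=
          Real.rpow_le_rpow_of_exponent_le hjR (by norm_num)
        have h6 : (4:ℝ) ^ (-1 : ℝ) = 1/4 := by
          rw [Real.rpow_neg_one]; norm_num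
        exact (h6.symm.le.trans h3).trans h4
      have h2 := Pr_le_one hok (RE 0 n 0 n) (Ek n v)
      have h3 : 0 ≤ C0 * (j:ℝ) ^ (-(2/3) : ℝ) := by positivity
      nlinarith
    · have hk : ((j - 3 : ℕ) : ℤ) + 3 ≤ bdist n v := by omega
      have h1 : Pr (fun _ => (1/2:ℝ)) (RE 0 n 0 n) (Ek n v) ≤
          PQ (1/2) (RE 0 n 0 n) (fun F => A3d v 2 (j - 3) ↑F) := by
        apply Pr_mono hok
        intro F _ hE
        exact hE (j - 3) (by omega) hk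
      have h2 := h v 2 (j - 3) (by norm_num) (by omega) (RE 0 n 0 n)
        (blk_sub (by push_cast; omega))
      have h3 : ((2:ℕ):ℝ) / ((j - 3 : ℕ) : ℝ) ≤ 5 / j := by
        have h4 : ((j - 3 : ℕ) : ℝ) = (j:ℝ) - 3 := by
          push_cast [Nat.cast_sub (show 3 ≤ j by omega)]; ring
        have h6 : (5:ℝ) ≤ j := by exact_mod_cast (by omega : 5 ≤ j)
        rw [h4, div_le_div_iff₀ (by linarith) hj0]
        push_cast
        linarith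
      have h4 : (((2:ℕ):ℝ) / ((j - 3 : ℕ) : ℝ)) ^ (2/3 : ℝ) ≤ (5 / (j:ℝ)) ^ (2/3 : ℝ) :=
        Real.rpow_le_rpow (by positivity) h3 (by norm_num)
      have h6 : (5 / (j:ℝ)) ^ (2/3 : ℝ) = 5 ^ (2/3 : ℝ) * (j:ℝ) ^ (-(2/3) : ℝ) := by
        rw [Real.div_rpow (by norm_num) hj0.le, Real.rpow_neg hj0.le]
        ring
      have h7 : (5:ℝ) ^ (2/3 : ℝ) ≤ 5 := by
        have := Real.rpow_le_rpow_of_exponent_le (show (1:ℝ) ≤ 5 by norm_num)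
          (show (2/3:ℝ) ≤ 1 by norm_num)
        rwa [Real.rpow_one] at this
      have h8 : C0 * (((2:ℕ):ℝ) / ((j - 3 : ℕ) : ℝ)) ^ (2/3 : ℝ) ≤
          C0 * (5 * (j:ℝ) ^ (-(2/3) : ℝ)) := by
        apply mul_le_mul_of_nonneg_left _ hC0.le
        rw [h6] at h4
        refine h4.trans ?_
        exact mul_le_mul_of_nonneg_right h7 hp0.le
      refine (h1.trans (h2.trans h8)).trans ?_
      nlinarith

theorem main : ∃ K : ℝ, 0 < K ∧ ∀ n : ℕ, 1 ≤ n →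
    expect n (fun F => (shortest n F : ℝ)) ≤ K * (n:ℝ) ^ (4/3 : ℝ) := by
  obtain ⟨C0, hC0, hU⟩ := Pool.Agent.W424.KI.u3
  have hD := t_AD C0 hU
  have hok : Ok (fun _ : Edg => (1/2:ℝ)) := fun _ => ⟨by norm_num, by norm_num⟩
  set C1 : ℝ := 5 * C0 + 4 with hC1
  have hC1p : 0 < C1 := by positivity
  refine ⟨2 * (4 * C1 + 8 * (1 + 3 * C1)), by positivity, ?_⟩
  intro n hn
  have hn1 : (1:ℝ) ≤ n := by exact_mod_cast hn
  have hn0 : (0:ℝ) < n := by linarith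
  rw [expect_eq]
  have h1 : Ex (fun _ => (1/2:ℝ)) (RE 0 n 0 n) (fun F => (shortest n F : ℝ)) ≤
      Ex (fun _ => (1/2:ℝ)) (RE 0 n 0 n)
        (fun F => ∑ v ∈ Finset.Icc (0:ℤ) n ×ˢ Finset.Icc (0:ℤ) n, 2 * ind (Ek n v F)) := by
    apply Ex_mono hok
    intro F hF
    exact shortest_le hn hF
  refine h1.trans ?_
  rw [Ex_sum]
  have h2 : ∑ v ∈ Finset.Icc (0:ℤ) n ×ˢ Finset.Icc (0:ℤ) n,
      Ex (fun _ => (1/2:ℝ)) (RE 0 n 0 n) (fun F => 2 * ind (Ek n v F)) ≤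
      ∑ v ∈ Finset.Icc (0:ℤ) n ×ˢ Finset.Icc (0:ℤ) n, 2 * (ph C1 (2/3) (n:ℤ) +
        (ph C1 (2/3) v.1 + ph C1 (2/3) (n - v.1) + (ph C1 (2/3) v.2 + ph C1 (2/3) (n - v.2)))) := by
    apply Finset.sum_le_sum
    intro v hv
    rw [Ex_mul_left]
    apply mul_le_mul_of_nonneg_left _ (by norm_num)
    have h3 := prob_Ek hC0 hD n v
    have h4 := ph_min (s := 2/3) hC1p.le n (n:ℤ) v
    have h5 : min (n:ℤ) (bdist n v) = bdist n v := by
      rw [Finset.mem_product, Finset.mem_Icc, Finset.mem_Icc] at hv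
      unfold bdist
      omega
    rw [h5] at h4
    exact h3.trans h4
  refine h2.trans ?_
  rw [← Finset.mul_sum]
  have h3 : ∑ v ∈ Finset.Icc (0:ℤ) n ×ˢ Finset.Icc (0:ℤ) n, (ph C1 (2/3) (n:ℤ) +
        (ph C1 (2/3) v.1 + ph C1 (2/3) (n - v.1) + (ph C1 (2/3) v.2 + ph C1 (2/3) (n - v.2)))) =
      (n + 1) ^ 2 * ph C1 (2/3) n + 4 * (n + 1) * ∑ x ∈ Finset.Icc (0:ℤ) n, ph C1 (2/3) x := by
    rw [Finset.sum_product]
    have hc : (Finset.Icc (0:ℤ) n).card = n + 1 := by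
      rw [Int.card_Icc]; omega
    simp_rw [Finset.sum_add_distrib, Finset.sum_const, hc, sum_refl n (ph C1 (2/3))]
    simp_rw [nsmul_eq_mul]
    have hr : ∑ x ∈ Finset.Icc (0:ℤ) n, ((n + 1 : ℕ) : ℝ) * ph C1 (2/3) (n - x) =
        ((n + 1 : ℕ) : ℝ) * ∑ x ∈ Finset.Icc (0:ℤ) n, ph C1 (2/3) x := by
      rw [← Finset.mul_sum, sum_refl n (ph C1 (2/3))]
    have hr2 : ∑ x ∈ Finset.Icc (0:ℤ) n, ((n + 1 : ℕ) : ℝ) * ph C1 (2/3) x =
        ((n + 1 : ℕ) : ℝ) * ∑ x ∈ Finset.Icc (0:ℤ) n, ph C1 (2/3) x := by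
      rw [← Finset.mul_sum]
    simp only [hr, hr2]
    push_cast
    ring
  rw [h3]
  have h5 := sum_ph_le (C := C1) (s := 2/3) hC1p.le (by norm_num) (by norm_num) n
  have h6 : ph C1 (2/3) (n:ℤ) = C1 * (n:ℝ) ^ (-(2/3) : ℝ) := by
    unfold ph
    rw [if_neg (by omega)]
    push_cast
    rfl
  have h9 : (n:ℝ) ^ 2 * (n:ℝ) ^ (-(2/3) : ℝ) = (n:ℝ) ^ (4/3 : ℝ) := by
    rw [← Real.rpow_natCast, ← Real.rpow_add hn0]
    norm_num
  have h10 : (n:ℝ) * (n:ℝ) ^ (1/3 : ℝ) = (n:ℝ) ^ (4/3 : ℝ) := by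
    rw [show (4/3:ℝ) = 1 + 1/3 by norm_num, Real.rpow_add hn0, Real.rpow_one]
  have h11 : (1:ℝ) ≤ (n:ℝ) ^ (1/3 : ℝ) := Real.one_le_rpow hn1 (by norm_num)
  have h13 : ((n:ℝ) + 1) ^ 2 * ph C1 (2/3) n ≤ 4 * C1 * (n:ℝ) ^ (4/3 : ℝ) := by
    rw [h6, ← h9]
    have h14 : ((n:ℝ) + 1) ^ 2 ≤ 4 * (n:ℝ) ^ 2 := by nlinarith
    have h15 : 0 ≤ C1 * (n:ℝ) ^ (-(2/3) : ℝ) := by positivity
    have := mul_le_mul_of_nonneg_right h14 h15
    linarith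
  have h16 : ∑ x ∈ Finset.Icc (0:ℤ) n, ph C1 (2/3) x ≤ (1 + 3 * C1) * (n:ℝ) ^ (1/3 : ℝ) := by
    refine h5.trans ?_
    rw [show (1 - 2/3 : ℝ) = 1/3 by norm_num]
    have : C1 * ((n:ℝ) ^ (1/3 : ℝ) / (1/3)) = 3 * C1 * (n:ℝ) ^ (1/3 : ℝ) := by ring
    rw [this, add_mul]
    linarith
  have h17 : 4 * ((n:ℝ) + 1) * ∑ x ∈ Finset.Icc (0:ℤ) n, ph C1 (2/3) x ≤
      8 * (1 + 3 * C1) * (n:ℝ) ^ (4/3 : ℝ) := by
    rw [← h10]
    have h18 : 4 * ((n:ℝ) + 1) ≤ 8 * n := by linarith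
    have h19 : 0 ≤ ∑ x ∈ Finset.Icc (0:ℤ) n, ph C1 (2/3) x :=
      Finset.sum_nonneg (fun x _ => ph_nonneg hC1p.le x)
    have h20 := mul_le_mul h18 h16 h19 (by positivity)
    linarith
  linarith

end Pool.Agent.W424.SC
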